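import Pool.Agent.TH589.DC.Num2
import Pool.Agent.H369R2.TD.Link

/-!
# `π(K_{r+1}^r) ≥ 1 - 1.7514/(r+1)` for all sufficiently large `r`

The notions are those of `Pool.Agent.H120R2.CliqueDefs`.

Outline (certified determinant codes).  Let `F` be a field with `q` elements, `q` a large fixed
prime, `K` large, `Q = q^K` and `y = (d+1)/Q = 4.88`.  Every vertex gets a random vector `ξ` of
`F^(d+1-K)`, so every `(d+1)`-set `Y` has `K` independent linear dependencies, a `K × Y` matrix `M`.
(1) If the set `Z` of zero columns of `M` is not empty, choose `Y - v` for some `v ∈ Z` by means of a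
Turán `(|Z|, |Z|-1)`-system; expected number of chosen sets: the mean of `c_N`, `N` Poisson of mean
`y`.  (2) If `M` has no zero column, `v ∈ Y` is called lone if no other column of `Y` is a multiple of
that of `v`: then the `d`-set `Y - v` has `K - 1` independent dependencies without zero column, and
such a `d`-set *knows* that almost nothing that contains it was treated in (1) (this is the
certificate; it has probability about `exp(-qy)` only).  A second, independent determinant code over
a field with `p` elements chooses among the certified sets; `p` is the expected number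
`μ ≈ (d+1) exp(-(q-1)y)` of lone vertices divided by `y₂ = 6`.  Since `(d+1) exp(-qy)/p = y₂ exp(-y)`,
the second kind costs only `y₂ exp(-y)`, and it reduces the probability of failure from `exp(-y)` to
`exp(-y-y₂)`.  The number of lone vertices is concentrated (Chebyshev).  The result then follows as in
`DeterminantCode` by splitting an `(r+1)`-set into a low part (new code) and a high part (systems
known for all large sizes: first the constant 1.808, then 1.7518); this works for `r` in windows near
multiples of powers of `q`, and a determinant code with large `y` extends it to all large `r`.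
The numbers `c_j / j` are Turán densities `t(j, j-1)` for small `j`; the table uses the systems of
`MP_465f8a_co.SmallSuccessors` (sizes 5, 8, 9, 10, 12, 14) and `t(7,6) ≤ 121/512` (odd systems).
-/

open Filter

namespace Pool.Agent.Results.MP_a4d830_co.CertifiedCodes

open Pool.Agent.H120R2.Clique

/-- There is `r₀` such that for every `r ≥ r₀` the limit `π(K_{r+1}^r)` of `ex(n, K_{r+1}^r) / C(n,r)`
exists and `π(K_{r+1}^r) ≥ 1 - 1.7514/(r+1)`. -/
theorem result : ∃ r₀ : ℕ, ∀ r : ℕ, r₀ ≤ r →
    Tendsto (fun n : ℕ => (ex n r (r + 1) : ℝ) / (n.choose r : ℝ)) atTop
      (nhds (turanDensity r (r + 1))) ∧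
    1 - 1.7514 / ((r : ℝ) + 1) ≤ turanDensity r (r + 1) := by
  obtain ⟨r₀, h⟩ := eventually_atTop.mp Pool.Agent.TH589.DC.tur_17514
  refine ⟨r₀, fun r hr => ⟨ratio_tendsto r (r + 1), ?_⟩⟩
  have := Pool.Agent.H369R2.TD.density_of_tur (h r hr)
  have e : (1.7514 : ℝ) = 17514 / 10000 := by norm_num
  rw [e]
  exact this

end Pool.Agent.Results.MP_a4d830_co.CertifiedCodes
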