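import Pool.Agent.TH424.Fl.K5Fin
import Pool.Agent.TH424.Fl.Bip

/-!
# Complete quadruples in 3-graphs without a complete 3-graph on five vertices

Let `H` be a `K_5^3`-free 3-graph on `n` vertices and `k` the number of its complete quadruples
(copies of `K_4^3`). Then `8 k ≤ n |H|` and `20 n |H| + 32 k ≤ 3 n^4`. Consequently `k ≤ n^4 / 64`,
and `|H| ≤ n^3 / 8 + (8 / (5 n)) (n^4 / 64 - k)`: Turán's bound `n^3 / 8` holds up to a multiple of
the number of complete quadruples that are missing from `n^4 / 64`. The 3-graph of the triples
meeting both halves of the vertex set shows that all constants are best possible.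

Outline: two sum of squares certificates of order six, found by a semidefinite programming solver
and made exact; the inequalities for the 3-graphs on six vertices are checked by the kernel.
-/

set_option autoImplicit false
open Finset
open scoped Classical

namespace Pool.Agent.Results.MP_a4d830_co.CliqueCounts

/-- The 3-graph `H` has no five vertices spanning all ten triples. -/
def K53Free {n : ℕ} (H : Finset (Finset (Fin n))) : Prop :=
  ∀ S : Finset (Fin n), S.card = 5 → ∃ s ⊆ S, s.card = 3 ∧ s ∉ H

/-- The number of four-element vertex sets all of whose triples are edges of `H`. -/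
noncomputable def completeQuads {n : ℕ} (H : Finset (Finset (Fin n))) : ℕ :=
  (((univ : Finset (Fin n)).powersetCard 4).filter fun S => ∀ s ⊆ S, s.card = 3 → s ∈ H).card

open Pool.Agent.TH424.Fl Pool.Agent.W629.Q4

theorem completeQuads_eq {n : ℕ} (H : Finset (Finset (Fin n))) (h3 : ∀ s ∈ H, s.card = 3) :
    completeQuads H = N4 H 4 := by
  unfold completeQuads N4
  congr 1
  refine filter_congr fun S hS => ?_
  have hS4 : S.card = 4 := (mem_powersetCard.mp hS).2
  have hsub : (H.filter fun t => t ⊆ S) ⊆ S.powersetCard 3 := by
    intro t ht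
    rw [mem_filter] at ht
    exact mem_powersetCard.mpr ⟨ht.2, h3 t ht.1⟩
  have hc : (S.powersetCard 3).card = 4 := by
    rw [card_powersetCard, hS4]; rfl
  have hi : inside H S = (H.filter fun t => t ⊆ S).card := by
    unfold inside
    congr!
  rw [hi]
  constructor
  · intro h
    have : (H.filter fun t => t ⊆ S) = S.powersetCard 3 := by
      refine Finset.Subset.antisymm hsub fun t ht => ?_
      rw [mem_powersetCard] at ht
      exact mem_filter.mpr ⟨h t ht.1 ht.2, ht.1⟩
    rw [this, hc]
  · intro h s hs hs3
    have h1 : (H.filter fun t => t ⊆ S) = S.powersetCard 3 :=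
      Finset.eq_of_subset_of_card_le hsub (by rw [hc, h])
    have h2 : s ∈ (H.filter fun t => t ⊆ S) := by
      rw [h1]; exact mem_powersetCard.mpr ⟨hs, hs3⟩
    exact (mem_filter.mp h2).1

/-- The inequalities between the number of edges and the number of complete quadruples of a
`K_5^3`-free 3-graph, and the 3-graph that shows that they are best possible. -/
theorem result :
    (∀ (n : ℕ) (H : Finset (Finset (Fin n))), (∀ s ∈ H, s.card = 3) → K53Free H →
      8 * completeQuads H ≤ n * H.card ∧
      20 * n * H.card + 32 * completeQuads H ≤ 3 * n ^ 4 ∧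
      64 * completeQuads H ≤ n ^ 4) ∧
    (∀ m : ℕ, ∃ H : Finset (Finset (Fin (2 * m))), (∀ s ∈ H, s.card = 3) ∧ K53Free H ∧
      2 * (m.choose 2 * m) ≤ H.card ∧ (m.choose 2) ^ 2 ≤ completeQuads H) := by
  constructor
  · intro n H h3 hK
    have hA := boundA h3 hK
    have hB := boundB h3 hK
    rw [completeQuads_eq H h3]
    refine ⟨hB, hA, ?_⟩
    nlinarith [hA, hB]
  · intro m
    exact ⟨bip m, bip_card3 m, bip_free m, bip_edges m, bip_quads m⟩

end Pool.Agent.Results.MP_a4d830_co.CliqueCounts
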