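import Pool.Agent.TH440.DC.Main

/-!
# An improvement of de Caen's upper bound for `π(K_k^r)` for every pair `k > r ≥ 3`

The notions are those of `Pool.Agent.H120R2.CliqueDefs`: `ex n r k = ex(n, K_k^r)` and
`turanDensity r k = π(K_k^r)`. De Caen's bound (1983) is `π(K_k^r) ≤ 1 - D` with
`D = 1 / C(k-1, r-1)`.

Outline.  Let `T` be the family of non-edges and let `t` be its density among the random `r`-tuples
of vertices.  The step from `r` to `r + 1` of de Caen's recursion loses `r v + (r - 1) g`, where `v`
is the variance of the codegrees of the `(r-1)`-tuples and `g` is the density of the broken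
cherries: two members `B + x`, `B + y` of `T` such that a third `r`-subset of `B + x + y` is not in
`T`.  If both were zero, then two members of `T` with `r - 1` common vertices would span a block,
every `(r-1)`-tuple would lie in exactly one block, and all blocks would have density `t`; for `A` an
`(r-3)`-tuple and `x`, `z` two further vertices the blocks through `A + x` and those through `A + z`
would give two partitions of the other vertices into parts of density `t`, no part of the one
meeting a part of the other in more than one vertex.  Counting the configurations `A x y u`,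
`A x y u'`, `A z w u`, `A z w u'` in `T` with `A x z u` not in `T` by the Cauchy-Schwarz inequality
(after a truncation of the codegrees) gives `v + g ≥ t^3 / 25`, and `v + g ≥ (9/10) t^3` for small
`t`.  The other steps of de Caen's recursion carry the gain to all `k`.
-/

set_option autoImplicit false

open Filter Topology

namespace Pool.Agent.Results.MP_a4d830_co.EveryPairBeyondDeCaen

open Pool.Agent.H120R2.Clique

theorem result (r k : ℕ) (hr : 3 ≤ r) (hk : r < k) :
    Tendsto (fun n : ℕ => (ex n r k : ℝ) / (n.choose r : ℝ)) atTop (𝓝 (turanDensity r k)) ∧
    turanDensity r k ≤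
      1 - (1 / ((k - 1).choose (r - 1) : ℝ) + (1 / ((k - 1).choose (r - 1) : ℝ)) ^ 3 / 40) ∧
    (200000 ≤ (k - 1).choose (r - 1) →
      turanDensity r k ≤ 1 - (1 / ((k - 1).choose (r - 1) : ℝ) +
        9 / 10 * (1 - 1 / (r : ℝ)) * (1 / ((k - 1).choose (r - 1) : ℝ)) ^ 3)) := by
  obtain ⟨h1, h2⟩ := Pool.Agent.TH440.DC.main hr hk
  exact ⟨ratio_tendsto r k, h1, h2⟩

end Pool.Agent.Results.MP_a4d830_co.EveryPairBeyondDeCaen
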