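import Pool.Agent.TH487.LogR.Final

/-!
# Turán densities of large cliques up to a factor of order `r log r`

The notions are those of `Pool.Agent.H120R2.CliqueDefs`: `ex n r m = ex(n, K_m^r)` and
`turanDensity r m = π(K_m^r)`.

Outline.  Put `a = m - 1 ≥ r³` and `l = ⌈log r⌉`.  Split the vertex set into `N = g M` equal classes,
where the classes form `g = ⌊a / (l r²)⌋` groups of `M = 120 l² r³` classes each.  On the classes take
a family of `r`-sets with a member in every set of `s = a - g r` classes; a greedy choice needs at
most `C(N,r)/C(s,r) · log C(N,s) + 1` of them.  The first type of blocks are the `r`-sets of vertices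
which meet each class of some member exactly once.  The second type are the `r`-sets of vertices
inside the union of `⌈r/2⌉` classes of one group.  A set of `a + 1` vertices meeting at least `s`
classes contains a block of the first type.  If it meets fewer classes, then, by the pigeonhole
principle, it has in some group at least `r` vertices more than it meets classes of that group, and so
it contains a block of the second type.  There are few blocks of the second type, and
`log C(N,s) ≤ a (log r + log l + 7)`; the factor `e^(4/l)` bounds the loss from `s < a`.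
-/

open Filter Topology

namespace Pool.Agent.Results.MP_a4d830_co.LogFactor

open Pool.Agent.H120R2.Clique

/-- For every `r ≥ 3`:
`(m - 1)^(r-1) (1 - π(K_m^r)) ≤ r! (log r + log log r + 110)` for all `m > r³`, and the limit `L` of
`(m - 1)^(r-1) (1 - π(K_m^r))` as `m → ∞` satisfies `(r - 1)! < L ≤ r! (log r + log log r + 110)`. -/
theorem result : ∀ r : ℕ, 3 ≤ r →
    (∀ m : ℕ, r ^ 3 < m → ((m : ℝ) - 1) ^ (r - 1) * (1 - turanDensity r m) ≤
      (r.factorial : ℝ) * (Real.log r + Real.log (Real.log r) + 110)) ∧
    ∃ L : ℝ, Tendsto (fun m : ℕ => ((m : ℝ) - 1) ^ (r - 1) * (1 - turanDensity r m)) atTop (𝓝 L) ∧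
      ((r - 1).factorial : ℝ) < L ∧
      L ≤ (r.factorial : ℝ) * (Real.log r + Real.log (Real.log r) + 110) := by
  intro r hr
  have hA : ∀ m : ℕ, r ^ 3 < m → ((m : ℝ) - 1) ^ (r - 1) * (1 - turanDensity r m) ≤
      (r.factorial : ℝ) * (Real.log r + Real.log (Real.log r) + 110) := by
    intro m hm
    have h := Pool.Agent.TH487.LogR.sharp (r := r) (a := m - 1) hr (by omega)
    have e1 : m - 1 + 1 = m := by omega
    have e2 : ((m - 1 : ℕ) : ℝ) = (m : ℝ) - 1 := by
      rw [Nat.cast_sub (by omega)]; simp
    rw [e1, e2] at h
    exact h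
  refine ⟨hA, ?_⟩
  obtain ⟨r₀, h⟩ := Pool.Agent.H688R3.TuranGen.main
  obtain ⟨L, h1, -, h3, -, -⟩ := h r hr
  refine ⟨L, h3, (Pool.Agent.H688R3.TuranGen.E_gt hr).trans_le h1, ?_⟩
  refine le_of_tendsto h3 ?_
  filter_upwards [eventually_gt_atTop (r ^ 3)] with m hm
  exact hA m hm

end Pool.Agent.Results.MP_a4d830_co.LogFactor
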